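import Pool.Agent.Y57.AK.Stm

/-! AK-PROJ (project AK of helper57; by helper38): the projection form. -/

set_option autoImplicit false

open Finset

namespace Pool.Agent.Y38.AK

open Pool.Agent.Y57.AK

theorem t_PROJ (hT : S_TEN) : S_PROJ := by
  intro n q S hq hS A hA
  -- the parameter
  obtain ⟨lam, hlam⟩ := Infinite.exists_notMem_finset
    (insert (0 : ℚ) (S.image fun r => 1 / (1 + r)))
  rw [Finset.mem_insert, not_or] at hlam
  obtain ⟨hl0, hl1⟩ := hlam
  have hr1 : ∀ r ∈ S, 1 + r ≠ 0 := by
    intro r hr h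
    have : r = -1 := by linarith
    exact hS (this ▸ hr)
  have hc : ∀ r ∈ S, 1 - lam * (1 + r) ≠ 0 := by
    intro r hr h
    apply hl1
    rw [Finset.mem_image]
    refine ⟨r, hr, ?_⟩
    rw [div_eq_iff (hr1 r hr)]
    linarith
  -- the differences
  set D : Finset (Fin n → ℚ) := A.image fun p i => ((p.1 i - p.2 i : ℤ) : ℚ) with hD
  have hcast : Function.Injective (fun (z : Fin n → ℤ) (i : Fin n) => (z i : ℚ)) := by
    intro z w h
    funext i
    have h1 : (z i : ℚ) = (w i : ℚ) := congrFun h i
    exact_mod_cast h1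
  have hDc : D.card = (A.image fun p => p.1 - p.2).card := by
    rw [← Finset.card_image_of_injective _ hcast, Finset.image_image]
    rfl
  have hex : ∀ d : Fin n → ℚ, ∃ p : (Fin n → ℤ) × (Fin n → ℤ), d ∈ D →
      p ∈ A ∧ ∀ i, d i = (p.1 i : ℚ) - p.2 i := by
    intro d
    by_cases hd : d ∈ D
    · obtain ⟨p, hp, hpd⟩ := Finset.mem_image.1 hd
      refine ⟨p, fun _ => ⟨hp, fun i => ?_⟩⟩
      rw [← hpd]
      push_cast
      rfl
    · exact ⟨(0, 0), fun h => absurd h hd⟩
  choose P hP using hex
  set v : (Fin n → ℚ) → (Fin n → ℚ) := fun d i => ((P d).2 i : ℚ) + lam * d i with hv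
  set s : ℚ → ℚ := fun r => (1 + r) / (1 - lam * (1 + r)) with hs
  set J : Finset ℚ := insert (-1 / lam) (S.image s) with hJ
  have hsinj : Set.InjOn s (S : Set ℚ) := by
    intro r hr r' hr' h
    simp only [hs] at h
    rw [div_eq_div_iff (hc r hr) (hc r' hr')] at h
    linarith
  have hsinf : -1 / lam ∉ S.image s := by
    intro h
    obtain ⟨r, hr, h1⟩ := Finset.mem_image.1 h
    simp only [hs] at h1
    rw [div_eq_div_iff (hc r hr) hl0] at h1
    linarith
  have hJc : J.card = S.card + 1 := by
    rw [hJ, Finset.card_insert_of_notMem hsinf, Finset.card_image_of_injOn hsinj]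
  set W := max (A.image Prod.snd).card
      (S.sup fun r => (A.image fun p => fun i => (p.1 i : ℚ) + r * (p.2 i : ℚ)).card) with hW
  have key := hT (Fin n) (fun i => A.image fun p => ((p.1 i - p.2 i : ℤ) : ℚ)) q W D v J ?_ ?_ hq
    ⟨-1 / lam, Finset.mem_insert_self _ _⟩ ?_
  · rw [hJc, Fintype.card_fin, hDc] at key
    have e : S.card + 1 + q - 1 = S.card + q := by omega
    rw [e] at key
    exact key
  · intro i
    have h1 : (A.image fun p => ((p.1 i - p.2 i : ℤ) : ℚ)) =
        (A.image fun p => p.1 i - p.2 i).image (fun z : ℤ => (z : ℚ)) := by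
      rw [Finset.image_image]
      rfl
    show (A.image fun p => ((p.1 i - p.2 i : ℤ) : ℚ)).card ≤ q
    rw [h1]
    exact Finset.card_image_le.trans (hA i)
  · intro d hd i
    obtain ⟨p, hp, hpd⟩ := Finset.mem_image.1 hd
    exact Finset.mem_image.2 ⟨p, hp, congrFun hpd i⟩
  · intro t ht
    rw [hJ, Finset.mem_insert, Finset.mem_image] at ht
    rcases ht with rfl | ⟨r, hr, rfl⟩
    · refine le_trans ?_ (le_max_left _ _)
      have hinj : Function.Injective (fun (w : Fin n → ℚ) (i : Fin n) => -lam * w i) := by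
        intro w w' h
        funext i
        have := congrFun h i
        exact mul_left_cancel₀ (neg_ne_zero.2 hl0) this
      rw [← Finset.card_image_of_injective _ hinj,
        ← Finset.card_image_of_injective (A.image Prod.snd) hcast]
      refine Finset.card_le_card ?_
      intro w hw
      obtain ⟨w', hw', rfl⟩ := Finset.mem_image.1 hw
      obtain ⟨d, hd, rfl⟩ := Finset.mem_image.1 hw'
      refine Finset.mem_image.2 ⟨(P d).2, Finset.mem_image.2 ⟨P d, (hP d hd).1, rfl⟩, ?_⟩
      funext i
      simp only [hv]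
      field_simp
      ring
    · refine le_trans ?_ (le_max_right _ _)
      refine le_trans ?_ (Finset.le_sup (f := fun r =>
        (A.image fun p => fun i => (p.1 i : ℚ) + r * (p.2 i : ℚ)).card) hr)
      have hcr := hc r hr
      have hinj : Function.Injective
          (fun (w : Fin n → ℚ) (i : Fin n) => (1 - lam * (1 + r)) * w i) := by
        intro w w' h
        funext i
        have := congrFun h i
        exact mul_left_cancel₀ hcr this
      rw [← Finset.card_image_of_injective _ hinj]
      refine Finset.card_le_card ?_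
      intro w hw
      obtain ⟨w', hw', rfl⟩ := Finset.mem_image.1 hw
      obtain ⟨d, hd, rfl⟩ := Finset.mem_image.1 hw'
      refine Finset.mem_image.2 ⟨P d, (hP d hd).1, ?_⟩
      funext i
      have h1 := (hP d hd).2 i
      simp only [hv, hs]
      have h2 : (1 - lam * (1 + r)) * (d i + (1 + r) / (1 - lam * (1 + r)) *
          (((P d).2 i : ℚ) + lam * d i)) =
          (1 - lam * (1 + r)) * d i + (1 + r) * (((P d).2 i : ℚ) + lam * d i) := by
        field_simp
      rw [h2]
      linear_combination (-1 : ℚ) * h1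

end Pool.Agent.Y38.AK
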